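import Pool.Agent.H20.ER3.Lib

/-!
# MP_816b90_co: row CD (`R` is asymmetric after the contraction)
-/

set_option autoImplicit false

namespace Pool.Agent.H6.ER3

open Pool.Agent.H48.ER Pool.Agent.H52.ER2 Pool.Agent.H66.ER2 Pool.Agent.H20.ER3

/-- a chordless path with five edges -/
theorem ip5 {W : Type} {M : SimpleGraph W} {a b c d e f : W} (ab : M.Adj a b) (bc : M.Adj b c)
    (cd : M.Adj c d) (de : M.Adj d e) (ef : M.Adj e f) (ac : ¬ M.Adj a c) (ad : ¬ M.Adj a d)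
    (ae : ¬ M.Adj a e) (af : ¬ M.Adj a f) (bd : ¬ M.Adj b d) (be : ¬ M.Adj b e)
    (bf : ¬ M.Adj b f) (ce : ¬ M.Adj c e) (cf : ¬ M.Adj c f) (df : ¬ M.Adj d f) :
    IP M 5 a f {a, b, c, d, e, f} := by
  have nac : a ≠ c := by rintro rfl; exact ad cd
  have nad : a ≠ d := by rintro rfl; exact bd ab.symm
  have nae : a ≠ e := by rintro rfl; exact af ef
  have naf : a ≠ f := by rintro rfl; exact bf ab.symm
  have nbd : b ≠ d := by rintro rfl; exact ad ab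
  have nbe : b ≠ e := by rintro rfl; exact ae ab
  have nbf : b ≠ f := by rintro rfl; exact af ab
  have nce : c ≠ e := by rintro rfl; exact be bc
  have ncf : c ≠ f := by rintro rfl; exact bf bc
  have ndf : d ≠ f := by rintro rfl; exact cf cd
  have k5 : IP M 1 e f {e, f} := IP.edge ef
  have k4 : IP M 2 d f {d, e, f} := by
    refine k5.cons ?_ ?_
    · simp only [Set.mem_insert_iff, Set.mem_singleton_iff, not_or]
      exact ⟨de.ne, ndf⟩
    · intro w hw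
      simp only [Set.mem_insert_iff, Set.mem_singleton_iff] at hw
      rcases hw with rfl | rfl
      · exact ⟨fun _ => rfl, fun _ => de⟩
      · exact ⟨fun h => absurd h df, fun h => absurd h ef.ne.symm⟩
  have k3 : IP M 3 c f {c, d, e, f} := by
    refine k4.cons ?_ ?_
    · simp only [Set.mem_insert_iff, Set.mem_singleton_iff, not_or]
      exact ⟨cd.ne, nce, ncf⟩
    · intro w hw
      simp only [Set.mem_insert_iff, Set.mem_singleton_iff] at hw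
      rcases hw with rfl | rfl | rfl
      · exact ⟨fun _ => rfl, fun _ => cd⟩
      · exact ⟨fun h => absurd h ce, fun h => absurd h de.ne.symm⟩
      · exact ⟨fun h => absurd h cf, fun h => absurd h ndf.symm⟩
  have k2 : IP M 4 b f {b, c, d, e, f} := by
    refine k3.cons ?_ ?_
    · simp only [Set.mem_insert_iff, Set.mem_singleton_iff, not_or]
      exact ⟨bc.ne, nbd, nbe, nbf⟩
    · intro w hw
      simp only [Set.mem_insert_iff, Set.mem_singleton_iff] at hw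
      rcases hw with rfl | rfl | rfl | rfl
      · exact ⟨fun _ => rfl, fun _ => bc⟩
      · exact ⟨fun h => absurd h bd, fun h => absurd h cd.ne.symm⟩
      · exact ⟨fun h => absurd h be, fun h => absurd h nce.symm⟩
      · exact ⟨fun h => absurd h bf, fun h => absurd h ncf.symm⟩
  refine k2.cons ?_ ?_
  · simp only [Set.mem_insert_iff, Set.mem_singleton_iff, not_or]
    exact ⟨ab.ne, nac, nad, nae, naf⟩
  · intro w hw
    simp only [Set.mem_insert_iff, Set.mem_singleton_iff] at hw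
    rcases hw with rfl | rfl | rfl | rfl | rfl
    · exact ⟨fun _ => rfl, fun _ => ab⟩
    · exact ⟨fun h => absurd h ac, fun h => absurd h bc.ne.symm⟩
    · exact ⟨fun h => absurd h ad, fun h => absurd h nbd.symm⟩
    · exact ⟨fun h => absurd h ae, fun h => absurd h nbe.symm⟩
    · exact ⟨fun h => absurd h af, fun h => absurd h nbf.symm⟩

section

variable {V : Type} {G : SimpleGraph V} {R : Set V} {p q : V}

theorem oc_adj {x y : V ⊕ Set V} (hx : ∀ r ∈ R, x ≠ Sum.inl r) (hy : ∀ r ∈ R, y ≠ Sum.inl r) :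
    (OC G R).Adj x y ↔ (MG G R).Adj x y :=
  ⟨fun h => h.2.2, fun h => ⟨hx, hy, h⟩⟩

theorem in_l {v : V} (hv : v ∉ R) : ∀ r ∈ R, (Sum.inl v : V ⊕ Set V) ≠ Sum.inl r :=
  fun r hr e => hv (Sum.inl.inj e ▸ hr)

theorem in_r (F : Set V) : ∀ r ∈ R, (Sum.inr F : V ⊕ Set V) ≠ Sum.inl r :=
  fun _ _ e => by cases e

theorem cn_ctr (hp : p ∉ R) (hq : q ∉ R) {F : Set V} (hF : F ⊆ R) :
    Cn (ctr G p q) F ↔ Cn G F := by
  have key : ∀ u ∈ F, ∀ w ∈ F, ((ctr G p q).Adj u w ↔ G.Adj u w) := fun u hu w hw =>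
    ctr_adj_of_ne (fun e => hp (e ▸ hF hu)) (fun e => hq (e ▸ hF hu))
      (fun e => hp (e ▸ hF hw)) (fun e => hq (e ▸ hF hw))
  constructor
  · intro h X hX hne hcl
    exact h X hX hne fun u hu w hw ha => hcl u hu w hw ((key u (hX hu) w hw).1 ha)
  · intro h X hX hne hcl
    exact h X hX hne fun u hu w hw ha => hcl u hu w hw ((key u (hX hu) w hw).2 ha)

theorem sees_ctr (hp : p ∉ R) (hq : q ∉ R) {F : Set V} {c : V} (h1 : c ≠ p) (h2 : c ≠ q) :
    Sees (ctr G p q) R F c ↔ Sees G R F c := by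
  constructor
  · rintro ⟨a1, a2, a3, f, hf, a4⟩
    exact ⟨a1, a2, (cn_ctr hp hq a2).1 a3, f, hf,
      (ctr_adj_of_ne h1 h2 (fun e => hp (e ▸ a2 hf)) (fun e => hq (e ▸ a2 hf))).1 a4⟩
  · rintro ⟨a1, a2, a3, f, hf, a4⟩
    exact ⟨a1, a2, (cn_ctr hp hq a2).2 a3, f, hf,
      (ctr_adj_of_ne h1 h2 (fun e => hp (e ▸ a2 hf)) (fun e => hq (e ▸ a2 hf))).2 a4⟩

theorem sees_ctr_p (hp : p ∉ R) (hq : q ∉ R) (hpq : p ≠ q) {F : Set V} :
    Sees (ctr G p q) R F p ↔ Sees G R F p ∨ Sees G R F q := by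
  constructor
  · rintro ⟨a1, a2, a3, f, hf, a4⟩
    have hfp : f ≠ p := fun e => hp (e ▸ a2 hf)
    rcases a4.2.2.2 with h | h | h
    · exact Or.inl ⟨hp, a2, (cn_ctr hp hq a2).1 a3, f, hf, h⟩
    · exact Or.inr ⟨hq, a2, (cn_ctr hp hq a2).1 a3, f, hf, h.2⟩
    · exact absurd h.1 hfp
  · rintro (⟨a1, a2, a3, f, hf, a4⟩ | ⟨a1, a2, a3, f, hf, a4⟩)
    · exact ⟨hp, a2, (cn_ctr hp hq a2).2 a3, f, hf, a4.ne, hpq, fun e => hq (e ▸ a2 hf),
        Or.inl a4⟩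
    · exact ⟨hp, a2, (cn_ctr hp hq a2).2 a3, f, hf, fun e => hp (e ▸ a2 hf), hpq,
        fun e => hq (e ▸ a2 hf), Or.inr (Or.inl ⟨rfl, a4⟩)⟩

theorem sees_ne_q {F : Set V} {c : V} (h : Sees (ctr G p q) R F c) : c ≠ q := by
  obtain ⟨_, _, _, f, _, a4⟩ := h
  exact a4.2.1

/-- the case `c1 = p` -/
theorem case1 (has : AsS G R) {z z' c2 c3 : V} {F1 F2 : Set V} (hz : z ∉ R) (hz' : z' ∉ R)
    (hzz : ¬ G.Adj z z')
    (hev : ∀ (n : ℕ) (X : Set (V ⊕ Set V)), IP (OC G R) n (Sum.inl z) (Sum.inl z') X → Even n)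
    (h23 : G.Adj c2 c3) (n2 : ¬ G.Adj z c2) (n3 : ¬ G.Adj z c3) (n2' : ¬ G.Adj z' c2)
    (n3' : ¬ G.Adj z' c3) (s1 : Sees G R F1 z) (s2 : Sees G R F2 z') (s12 : Sees G R F1 c2)
    (s13 : ¬ Sees G R F1 c3) (s23 : Sees G R F2 c3) (s22 : ¬ Sees G R F2 c2) : False := by
  by_cases t1 : Sees G R F2 z
  · exact has z c2 c3 F1 F2 h23 n2 n3 s1 s12 s13 s23.1 t1 s23 s22
  by_cases t2 : Sees G R F1 z'
  · exact has z' c2 c3 F1 F2 h23 n2' n3' t2 s12 s13 s23.1 s2 s23 s22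
  have h : IP (OC G R) 5 (Sum.inl z) (Sum.inl z') {Sum.inl z, Sum.inr F1, Sum.inl c2,
      Sum.inl c3, Sum.inr F2, Sum.inl z'} := by
    refine ip5 ?_ ?_ ?_ ?_ ?_ ?_ ?_ ?_ ?_ ?_ ?_ ?_ ?_ ?_ ?_
    · exact (oc_adj (in_l hz) (in_r _)).2 s1
    · exact (oc_adj (in_r _) (in_l s12.1)).2 s12
    · exact (oc_adj (in_l s12.1) (in_l s23.1)).2 h23
    · exact (oc_adj (in_l s23.1) (in_r _)).2 s23
    · exact (oc_adj (in_r _) (in_l hz')).2 s2
    · exact fun h => n2 h.2.2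
    · exact fun h => n3 h.2.2
    · exact fun h => t1 h.2.2
    · exact fun h => hzz h.2.2
    · exact fun h => s13 h.2.2
    · exact fun h => h.2.2
    · exact fun h => t2 h.2.2
    · exact fun h => s22 h.2.2
    · exact fun h => n2' (show G.Adj c2 z' from h.2.2).symm
    · exact fun h => n3' (show G.Adj c3 z' from h.2.2).symm
  have := hev 5 _ h
  revert this
  decide

/-- the case `c2 = p` -/
theorem case2 (has : AsS G R) {z z' c1 c3 : V} {F1 F2 : Set V} (hz : z ∉ R) (hz' : z' ∉ R)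
    (hzz : ¬ G.Adj z z')
    (hev : ∀ (n : ℕ) (X : Set (V ⊕ Set V)), IP (OC G R) n (Sum.inl z) (Sum.inl z') X → Even n)
    (h3 : G.Adj z c3 ∨ G.Adj z' c3) (n1 : ¬ G.Adj c1 z) (n1' : ¬ G.Adj c1 z')
    (h13 : ¬ G.Adj c1 c3) (s11 : Sees G R F1 c1) (s1 : Sees G R F1 z)
    (s13 : ¬ Sees G R F1 c3) (s21 : Sees G R F2 c1) (s23 : Sees G R F2 c3)
    (s2 : ¬ Sees G R F2 z) (s2' : ¬ Sees G R F2 z') : False := by
  by_cases t : G.Adj z c3
  · exact has c1 z c3 F1 F2 t n1 h13 s11 s1 s13 s23.1 s21 s23 s2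
  have t' : G.Adj z' c3 := h3.resolve_left t
  by_cases t2 : Sees G R F1 z'
  · exact has c1 z' c3 F1 F2 t' n1' h13 s11 t2 s13 s23.1 s21 s23 s2'
  have h : IP (OC G R) 5 (Sum.inl z) (Sum.inl z') {Sum.inl z, Sum.inr F1, Sum.inl c1,
      Sum.inr F2, Sum.inl c3, Sum.inl z'} := by
    refine ip5 ?_ ?_ ?_ ?_ ?_ ?_ ?_ ?_ ?_ ?_ ?_ ?_ ?_ ?_ ?_
    · exact (oc_adj (in_l hz) (in_r _)).2 s1
    · exact (oc_adj (in_r _) (in_l s11.1)).2 s11
    · exact (oc_adj (in_l s11.1) (in_r _)).2 s21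
    · exact (oc_adj (in_r _) (in_l s23.1)).2 s23
    · exact (oc_adj (in_l s23.1) (in_l hz')).2 t'.symm
    · exact fun h => n1 (show G.Adj z c1 from h.2.2).symm
    · exact fun h => s2 h.2.2
    · exact fun h => t h.2.2
    · exact fun h => hzz h.2.2
    · exact fun h => h.2.2
    · exact fun h => s13 h.2.2
    · exact fun h => t2 h.2.2
    · exact fun h => h13 h.2.2
    · exact fun h => n1' h.2.2
    · exact fun h => s2' h.2.2
  have := hev 5 _ h
  revert this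
  decide

/-- the case `c2 = p`, both possibilities -/
theorem case2' (has : AsS G R) (hp : p ∉ R) (hq : q ∉ R)
    (hev : EvP (OC G R) (Sum.inl p) (Sum.inl q)) {c1 c3 : V} {F1 F2 : Set V}
    (h23 : (ctr G p q).Adj p c3) (h12 : ¬ (ctr G p q).Adj c1 p) (h13 : ¬ (ctr G p q).Adj c1 c3)
    (s11 : Sees (ctr G p q) R F1 c1) (s12 : Sees (ctr G p q) R F1 p)
    (s13 : ¬ Sees (ctr G p q) R F1 c3) (s21 : Sees (ctr G p q) R F2 c1)
    (s23 : Sees (ctr G p q) R F2 c3) (s22 : ¬ Sees (ctr G p q) R F2 p) : False := by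
  have hpq : p ≠ q := fun e => hev.1 (by rw [e])
  have hnp : ¬ G.Adj p q := fun h => hev.2.1 ((oc_adj (in_l hp) (in_l hq)).2 h)
  have c1q : c1 ≠ q := sees_ne_q s11
  have c3q : c3 ≠ q := sees_ne_q s23
  have c1p : c1 ≠ p := by rintro rfl; exact s22 s21
  have c3p : c3 ≠ p := h23.ne.symm
  rw [sees_ctr_p hp hq hpq] at s12 s22
  rw [sees_ctr hp hq c1p c1q] at s11 s21
  rw [sees_ctr hp hq c3p c3q] at s13 s23
  rw [ctr_adj_of_ne c1p c1q c3p c3q] at h13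
  have n1p : ¬ G.Adj c1 p := fun h => h12 ⟨c1p, c1q, hpq, Or.inl h⟩
  have n1q : ¬ G.Adj c1 q := fun h => h12 ⟨c1p, c1q, hpq, Or.inr (Or.inr ⟨rfl, h⟩)⟩
  have h3 : G.Adj p c3 ∨ G.Adj q c3 := by
    rcases h23.2.2.2 with h | h | h
    · exact Or.inl h
    · exact Or.inr h.2
    · exact absurd h.1 c3p
  rcases s12 with s | s
  · exact case2 has hp hq hnp hev.2.2 h3 n1p n1q h13 s11 s s13 s21 s23
      (fun h => s22 (Or.inl h)) (fun h => s22 (Or.inr h))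
  · exact case2 has hq hp (fun h => hnp h.symm) (fun n X h => hev.2.2 n X h.rev) h3.symm n1q n1p
      h13 s11 s s13 s21 s23 (fun h => s22 (Or.inr h)) (fun h => s22 (Or.inl h))

end

/-- (CD) `R` is asymmetric after the contraction -/
theorem pf_CD : U_CD := by
  intro V G R p q has hp hq hev c1 c2 c3 F1 F2 h23 h12 h13 s11 s12 s13 hc3 s21 s23 s22
  have hpq : p ≠ q := fun e => hev.1 (by rw [e])
  have hnp : ¬ G.Adj p q := fun h => hev.2.1 ((oc_adj (in_l hp) (in_l hq)).2 h)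
  have c1q : c1 ≠ q := sees_ne_q s11
  have c2q : c2 ≠ q := sees_ne_q s12
  have c3q : c3 ≠ q := sees_ne_q s23
  by_cases c2p : c2 = p
  · subst c2p
    exact case2' has hp hq hev h23 h12 h13 s11 s12 s13 s21 s23 s22
  by_cases c3p : c3 = p
  · subst c3p
    exact case2' has hp hq hev h23.symm h13 h12 s21 s23 s22 s11 s12 s13
  rw [sees_ctr hp hq c2p c2q] at s12 s22
  rw [sees_ctr hp hq c3p c3q] at s13 s23
  rw [ctr_adj_of_ne c2p c2q c3p c3q] at h23
  by_cases c1p : c1 = p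
  · subst c1p
    rw [sees_ctr_p hp hq hpq] at s11 s21
    have np : ∀ c, c ≠ c1 → c ≠ q → ¬ (ctr G c1 q).Adj c1 c → ¬ G.Adj c1 c ∧ ¬ G.Adj q c :=
      fun c e1 e2 hn => ⟨fun h => hn ⟨e1.symm, hpq, e2, Or.inl h⟩,
        fun h => hn ⟨e1.symm, hpq, e2, Or.inr (Or.inl ⟨rfl, h⟩)⟩⟩
    obtain ⟨n2, n2'⟩ := np c2 c2p c2q h12
    obtain ⟨n3, n3'⟩ := np c3 c3p c3q h13
    rcases s11 with s1 | s1
    · rcases s21 with s2 | s2
      · exact has c1 c2 c3 F1 F2 h23 n2 n3 s1 s12 s13 s23.1 s2 s23 s22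
      · exact case1 has hp hq hnp hev.2.2 h23 n2 n3 n2' n3' s1 s2 s12 s13 s23 s22
    · rcases s21 with s2 | s2
      · exact case1 has hq hp (fun h => hnp h.symm) (fun n X h => hev.2.2 n X h.rev) h23 n2' n3'
          n2 n3 s1 s2 s12 s13 s23 s22
      · exact has q c2 c3 F1 F2 h23 n2' n3' s1 s12 s13 s23.1 s2 s23 s22
  · rw [sees_ctr hp hq c1p c1q] at s11 s21
    rw [ctr_adj_of_ne c1p c1q c2p c2q] at h12
    rw [ctr_adj_of_ne c1p c1q c3p c3q] at h13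
    exact has c1 c2 c3 F1 F2 h23 h12 h13 s11 s12 s13 hc3 s21 s23 s22

end Pool.Agent.H6.ER3
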